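import Mathlib

/-!
# The trace form of an irreducible Lie algebra of operators of trace zero
-/

set_option linter.unusedSectionVars false

namespace Pool.Agent.W548.Adic

open Module LinearMap

attribute [local instance 100] LieRing.ofAssociativeRing

theorem ad_nilp {K D A : Type*} [Field K] [LieRing D] [LieAlgebra K D] [Ring A] [Algebra K A]
    (φ : D →ₗ⁅K⁆ A) (hφ : Function.Injective φ) (x : D) (hx : _root_.IsNilpotent (φ x)) :
    _root_.IsNilpotent (LieAlgebra.ad K D x) := by
  obtain ⟨n, hn⟩ := LieAlgebra.ad_nilpotent_of_nilpotent (R := K) hx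
  refine ⟨n, ?_⟩
  have h3 : ∀ (k : ℕ) (y : D), φ (((LieAlgebra.ad K D x) ^ k) y) =
      ((LieAlgebra.ad K A (φ x)) ^ k) (φ y) := by
    intro k
    induction k with
    | zero => intro y; rfl
    | succ k ih =>
      intro y
      rw [pow_succ, pow_succ, Module.End.mul_apply, Module.End.mul_apply, ih, LieAlgebra.ad_apply,
        LieAlgebra.ad_apply, LieHom.map_lie]
  ext y
  apply hφ
  rw [h3, hn]
  simp

theorem solvable_of_traceForm {K L M : Type*} [Field K] [CharZero K] [LieRing L] [LieAlgebra K L]
    [Module.Finite K L] [AddCommGroup M] [Module K M] [LieRingModule L M] [LieModule K L M]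
    [Module.Finite K M] (hinj : Function.Injective (LieModule.toEnd K L M))
    (h : LieModule.traceForm K L M = 0) : LieAlgebra.IsSolvable L := by
  have hnil := LieModule.isNilpotent_derivedSeries_of_traceForm_eq_zero h
  have hDn : LieRing.IsNilpotent (LieAlgebra.derivedSeries K L 1) := by
    rw [LieAlgebra.isNilpotent_iff_forall (R := K)]
    intro x
    have h1 := (LieModule.isNilpotent_iff_forall' (R := K)).1 hnil x
    refine ad_nilp (LieModule.toEnd K (LieAlgebra.derivedSeries K L 1) M) ?_ x h1
    intro a b hab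
    exact Subtype.ext (hinj hab)
  have hDs : LieAlgebra.IsSolvable (LieAlgebra.derivedSeries K L 1) := inferInstance
  obtain ⟨k, hk⟩ := LieAlgebra.IsSolvable.solvable K (LieAlgebra.derivedSeries K L 1)
  rw [LieIdeal.derivedSeries_eq_bot_iff] at hk
  refine LieAlgebra.IsSolvable.mk (R := K) (k := k + 1) ?_
  rw [LieAlgebra.derivedSeries_def, LieAlgebra.derivedSeriesOfIdeal_add]
  exact hk

variable {K : Type*} [Field K] [CharZero K] [IsAlgClosed K] {V : Type*} [AddCommGroup V]
  [Module K V] [FiniteDimensional K V]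

/-- The submodule `G` as a Lie algebra. -/
def toLie (G : Submodule K (End K V)) (hbr : ∀ y ∈ G, ∀ z ∈ G, y * z - z * y ∈ G) :
    LieSubalgebra K (End K V) where
  __ := G
  lie_mem' := by
    intro y z hy hz
    exact hbr y hy z hz

theorem mem_toLie {G : Submodule K (End K V)} {hbr : ∀ y ∈ G, ∀ z ∈ G, y * z - z * y ∈ G}
    {y : End K V} : y ∈ toLie G hbr ↔ y ∈ G := Iff.rfl

/-- The radical of the trace form. -/
def rad (G : Submodule K (End K V)) (hbr : ∀ y ∈ G, ∀ z ∈ G, y * z - z * y ∈ G) :
    LieIdeal K (toLie G hbr) where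
  carrier := {y | ∀ z ∈ G, trace K V ((y : End K V) * z) = 0}
  zero_mem' := fun z _ => by
    rw [ZeroMemClass.coe_zero, zero_mul, map_zero]
  add_mem' := fun {a b} ha hb z hz => by
    rw [AddMemClass.coe_add, add_mul, map_add, ha z hz, hb z hz, add_zero]
  smul_mem' := fun c a ha z hz => by
    rw [SetLike.val_smul, smul_mul_assoc, map_smul, ha z hz, smul_zero]
  lie_mem := by
    intro x m hm z hz
    have h1 : ((⁅x, m⁆ : toLie G hbr) : End K V) = (x : End K V) * m - m * x := rfl
    have h2 := hm _ (hbr z hz x x.2)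
    have h3 : trace K V ((x : End K V) * m * z) = trace K V ((m : End K V) * z * x) := by
      rw [mul_assoc, LinearMap.trace_mul_comm]
    have h4 : ((x : End K V) * m - m * x) * z = (x : End K V) * m * z - m * x * z := by
      noncomm_ring
    have h5 : (m : End K V) * (z * x - x * z) = (m : End K V) * z * x - m * x * z := by
      noncomm_ring
    rw [h1, h4, map_sub, h3, ← map_sub, ← h5, h2]

/-- The trace form of an irreducible Lie algebra of operators of trace zero is nondegenerate. -/
theorem nondeg_of_irr [Nontrivial V] {G : Submodule K (End K V)}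
    (hbr : ∀ y ∈ G, ∀ z ∈ G, y * z - z * y ∈ G)
    (hirr : ∀ M : Submodule K V, (∀ y ∈ G, ∀ w ∈ M, y w ∈ M) → M = ⊥ ∨ M = ⊤)
    (htr : ∀ y ∈ G, trace K V y = 0) :
    ∀ y ∈ G, (∀ z ∈ G, trace K V (y * z) = 0) → y = 0 := by
  have hI : LieModule.IsIrreducible K (toLie G hbr) V := by
    refine LieModule.IsIrreducible.mk fun N hN => ?_
    rcases hirr N.toSubmodule (fun y hy w hw => N.lie_mem (x := (⟨y, hy⟩ : toLie G hbr)) hw)
      with h | h
    · exact absurd (by rwa [LieSubmodule.toSubmodule_eq_bot] at h) hN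
    · rwa [LieSubmodule.toSubmodule_eq_top] at h
  have hF : LieModule.IsFaithful K (toLie G hbr) V := by
    rw [LieModule.isFaithful_iff']
    intro x hx
    exact Subtype.ext (LinearMap.ext hx)
  have hR : LieAlgebra.HasTrivialRadical K (toLie G hbr) :=
    LieAlgebra.hasTrivialRadical_of_isIrreducible_of_isFaithful K (toLie G hbr) V
      fun x => htr x x.2
  have htf : LieModule.traceForm K (rad G hbr) V = 0 := by
    ext x y
    exact x.2 _ (y : toLie G hbr).2
  have hRs : LieAlgebra.IsSolvable (rad G hbr) := by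
    refine solvable_of_traceForm (K := K) (M := V) ?_ htf
    intro a b hab
    exact Subtype.ext (Subtype.ext hab)
  have hR0 : rad G hbr ≤ LieAlgebra.radical K (toLie G hbr) :=
    (LieAlgebra.LieIdeal.solvable_iff_le_radical K (toLie G hbr) (rad G hbr)).1 hRs
  intro y hy hyz
  have h1 : (⟨y, hy⟩ : toLie G hbr) ∈ rad G hbr := hyz
  have h2 := hR0 h1
  rw [LieAlgebra.HasTrivialRadical.radical_eq_bot, LieSubmodule.mem_bot] at h2
  exact congrArg Subtype.val h2

end Pool.Agent.W548.Adic
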