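import Mathlib
import Pool.Agent.W548.Odd.Final
import Pool.Agent.W548.Adic.Nondeg

/-!
# Elements of odd rank in Lie algebras with many involutions
-/

set_option linter.unusedSectionVars false

namespace Pool.Agent.W548.Adic

open Module LinearMap Pool.Agent.W548.Odd

section gen

variable {K : Type*} [Field K] [CharZero K] {V : Type*} [AddCommGroup V] [Module K V]
  [FiniteDimensional K V]

/-- The Lie algebra generated by the elements of square one of `𝔤`. -/
def invGen (𝔤 : Submodule K (End K V)) : Submodule K (End K V) :=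
  sInf {L | (∀ D ∈ 𝔤, D * D = 1 → D ∈ L) ∧ ∀ y ∈ L, ∀ z ∈ L, y * z - z * y ∈ L}

variable {𝔤 : Submodule K (End K V)}

theorem mem_invGen {D : End K V} (hD : D ∈ 𝔤) (hD2 : D * D = 1) : D ∈ invGen 𝔤 := by
  unfold invGen
  rw [Submodule.mem_sInf]
  exact fun L hL => hL.1 D hD hD2

theorem invGen_br : ∀ y ∈ invGen 𝔤, ∀ z ∈ invGen 𝔤, y * z - z * y ∈ invGen 𝔤 := by
  intro y hy z hz
  unfold invGen at hy hz ⊢
  rw [Submodule.mem_sInf] at hy hz ⊢
  exact fun L hL => hL.2 y (hy L hL) z (hz L hL)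

theorem invGen_le' {L : Submodule K (End K V)} (h1 : ∀ D ∈ 𝔤, D * D = 1 → D ∈ L)
    (h2 : ∀ y ∈ L, ∀ z ∈ L, y * z - z * y ∈ L) : invGen 𝔤 ≤ L := sInf_le ⟨h1, h2⟩

variable (hbr : ∀ y ∈ 𝔤, ∀ z ∈ 𝔤, y * z - z * y ∈ 𝔤)

include hbr in
theorem invGen_le : invGen 𝔤 ≤ 𝔤 := invGen_le' (fun _ hD _ => hD) hbr

include hbr in
theorem up_mem_invGen {D X : End K V} (hD : D ∈ 𝔤) (hD2 : D * D = 1) (hX : X ∈ 𝔤)
    (h1 : D * X = X) (h2 : X * D = -X) : X ∈ invGen 𝔤 := by
  have h3 : X * X = 0 := sq_zero_of_up h1 h2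
  have h4 : (D - (2 : K) • X) * (D - (2 : K) • X) = 1 := by
    have : (D - (2 : K) • X) * (D - (2 : K) • X) =
        D * D - (2 : K) • (D * X) - (2 : K) • (X * D) + (4 : K) • (X * X) := by
      simp only [sub_mul, mul_sub, smul_mul_assoc, mul_smul_comm]
      module
    rw [this, h1, h2, h3, hD2]
    module
  have h5 := mem_invGen (𝔤.sub_mem hD (𝔤.smul_mem 2 hX)) h4
  have h6 := Submodule.sub_mem _ (mem_invGen hD hD2) h5
  rw [sub_sub_cancel] at h6
  have h7 := Submodule.smul_mem _ (2 : K)⁻¹ h6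
  rwa [smul_smul, inv_mul_cancel₀ two_ne_zero, one_smul] at h7

include hbr in
theorem ad_invol {D X : End K V} (hD : D ∈ 𝔤) (hD2 : D * D = 1) (hX : X ∈ 𝔤) :
    X * D - D * X ∈ invGen 𝔤 := by
  have hI : IsIdl 𝔤 𝔤 := ⟨le_rfl, hbr⟩
  have h1 : (1 + D) * X * (1 - D) ∈ invGen 𝔤 :=
    up_mem_invGen hbr hD hD2 (hI.up hD hD2 hX) (up_left hD2 X) (up_right hD2 X)
  have h2 : (1 - D) * X * (1 + D) ∈ invGen 𝔤 := by
    refine up_mem_invGen hbr (D := -D) (𝔤.neg_mem hD) (by rw [neg_mul_neg, hD2])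
      (hI.dn hD hD2 hX) ?_ ?_
    · rw [neg_mul, dn_left hD2, neg_neg]
    · rw [mul_neg, dn_right hD2]
  have h3 := Submodule.smul_mem _ (2 : K)⁻¹ (Submodule.sub_mem _ h2 h1)
  have h4 : (1 - D) * X * (1 + D) - (1 + D) * X * (1 - D) = (2 : K) • (X * D - D * X) := by
    rw [two_smul]
    noncomm_ring
  rwa [h4, smul_smul, inv_mul_cancel₀ two_ne_zero, one_smul] at h3

include hbr in
theorem invGen_idl : IsIdl 𝔤 (invGen 𝔤) := by
  refine ⟨invGen_le hbr, fun y hy => ?_⟩
  have h := invGen_le' (𝔤 := 𝔤) (L :=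
    { carrier := {z | z ∈ invGen 𝔤 ∧ y * z - z * y ∈ invGen 𝔤}
      zero_mem' := ⟨Submodule.zero_mem _, by
        rw [mul_zero, zero_mul, sub_zero]
        exact Submodule.zero_mem _⟩
      add_mem' := by
        rintro a b ⟨h1, h2⟩ ⟨h3, h4⟩
        refine ⟨Submodule.add_mem _ h1 h3, ?_⟩
        have : y * (a + b) - (a + b) * y = (y * a - a * y) + (y * b - b * y) := by noncomm_ring
        rw [this]
        exact Submodule.add_mem _ h2 h4
      smul_mem' := by
        rintro c a ⟨h1, h2⟩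
        refine ⟨Submodule.smul_mem _ c h1, ?_⟩
        rw [mul_smul_comm, smul_mul_assoc, ← smul_sub]
        exact Submodule.smul_mem _ c h2 })
    (fun D hD hD2 => ⟨mem_invGen hD hD2, ad_invol hbr hD hD2 hy⟩) (by
      rintro a ⟨h1, h2⟩ b ⟨h3, h4⟩
      refine ⟨invGen_br a h1 b h3, ?_⟩
      have : y * (a * b - b * a) - (a * b - b * a) * y =
          ((y * a - a * y) * b - b * (y * a - a * y)) +
            (a * (y * b - b * y) - (y * b - b * y) * a) := by noncomm_ring
      rw [this]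
      exact Submodule.add_mem _ (invGen_br _ h2 b h3) (invGen_br a h1 _ h4))
  exact fun z hz => (h hz).2

end gen

variable {K : Type*} [Field K] [CharZero K] [IsAlgClosed K] {V : Type*} [AddCommGroup V]
  [Module K V] [FiniteDimensional K V]

/-- The adjoint for a nondegenerate form. -/
def adj (β : V ≃ₗ[K] Dual K V) : End K V →ₗ[K] End K V where
  toFun a := β.symm.toLinearMap ∘ₗ a.dualMap ∘ₗ β.toLinearMap
  map_add' a b := by
    ext v
    simp [LinearMap.dualMap_apply', LinearMap.comp_add]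
  map_smul' c a := by
    ext v
    simp [LinearMap.dualMap_apply', LinearMap.comp_smul]

theorem adj_apply (β : V ≃ₗ[K] Dual K V) (a : End K V) (u v : V) :
    β (adj β a u) v = β u (a v) := by
  change β (β.symm (a.dualMap (β u))) v = _
  rw [LinearEquiv.apply_symm_apply, LinearMap.dualMap_apply]

theorem rk_adj (β : V ≃ₗ[K] Dual K V) (a : End K V) : rk (adj β a) = rk a := by
  unfold rk
  change finrank K (LinearMap.range (β.symm.toLinearMap ∘ₗ a.dualMap ∘ₗ β.toLinearMap)) = _
  rw [LinearMap.range_comp, LinearMap.range_comp, LinearEquiv.range, Submodule.map_top,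
    LinearEquiv.finrank_map_eq β.symm, LinearMap.finrank_range_dualMap_eq_finrank_range]

/-- An operator that commutes with an irreducible set of operators is a scalar. -/
theorem scalar_of_comm [Nontrivial V] {G : Submodule K (End K V)}
    (hirr : ∀ M : Submodule K V, (∀ y ∈ G, ∀ w ∈ M, y w ∈ M) → M = ⊥ ∨ M = ⊤) {c : End K V}
    (hc : ∀ y ∈ G, c * y = y * c) : ∃ s : K, c = s • 1 := by
  obtain ⟨s, hs⟩ := Module.End.exists_eigenvalue c
  refine ⟨s, ?_⟩
  rcases hirr (Module.End.eigenspace c s) (by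
    intro y hy w hw
    rw [Module.End.mem_eigenspace_iff] at hw ⊢
    have h1 : c (y w) = y (c w) := LinearMap.congr_fun (hc y hy) w
    rw [h1, hw, map_smul]) with h | h
  · exact absurd h hs
  · ext w
    have h1 : w ∈ Module.End.eigenspace c s := by
      rw [h]
      trivial
    rw [Module.End.mem_eigenspace_iff] at h1
    exact h1

/-- Skew operators have trace zero. -/
theorem trace_zero (β : V ≃ₗ[K] Dual K V) {𝔤 : Submodule K (End K V)}
    (hsk : ∀ y ∈ 𝔤, ∀ u v, β (y u) v + β u (y v) = 0) : ∀ y ∈ 𝔤, trace K V y = 0 := by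
  have hst : ∀ y ∈ 𝔤, adj β y = -y := by
    intro y hy
    refine LinearMap.ext fun u => β.injective (LinearMap.ext fun v => ?_)
    rw [adj_apply, LinearMap.neg_apply, map_neg, LinearMap.neg_apply]
    exact eq_neg_of_add_eq_zero_right (hsk y hy u v)
  intro y hy
  have h1 : trace K V (adj β y) = trace K V y := by
    have e1 : adj β y = β.symm.conj (Module.Dual.transpose (R := K) y) := by
      refine LinearMap.ext fun u => β.injective (LinearMap.ext fun v => ?_)
      rw [adj_apply, LinearEquiv.conj_apply_apply, LinearEquiv.symm_symm,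
        LinearEquiv.apply_symm_apply]
      rfl
    rw [e1, LinearMap.trace_conj', LinearMap.trace_transpose']
  rw [hst y hy, map_neg] at h1
  have h2 : (2 : K) * trace K V y = 0 := by linear_combination -h1
  exact (mul_eq_zero.1 h2).resolve_left two_ne_zero

/-- **Main step.** A Lie algebra of operators which are skew for a nondegenerate pairing, whose
involutions act irreducibly, and which contains a square-zero element of odd rank, contains an
element of rank one. -/
theorem exists_rank_one [Nontrivial V] (β : V ≃ₗ[K] Dual K V) {𝔤 : Submodule K (End K V)}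
    (hbr : ∀ y ∈ 𝔤, ∀ z ∈ 𝔤, y * z - z * y ∈ 𝔤)
    (hsk : ∀ y ∈ 𝔤, ∀ u v, β (y u) v + β u (y v) = 0)
    (hirr : ∀ M : Submodule K V, (∀ D ∈ 𝔤, D * D = 1 → ∀ w ∈ M, D w ∈ M) → M = ⊥ ∨ M = ⊤)
    {N : End K V} (hN : N ∈ 𝔤) (hN2 : N * N = 0) (hodd : Odd (rk N)) :
    ∃ e ∈ 𝔤, ∃ D ∈ 𝔤, rk e = 1 ∧ D * e = e ∧ e * D = -e := by
  have hst : ∀ y ∈ 𝔤, adj β y = -y := by
    intro y hy
    refine LinearMap.ext fun u => β.injective (LinearMap.ext fun v => ?_)
    rw [adj_apply, LinearMap.neg_apply, map_neg, LinearMap.neg_apply]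
    exact eq_neg_of_add_eq_zero_right (hsk y hy u v)
  have htr := trace_zero β hsk
  set G := invGen 𝔤 with hG
  have hle : G ≤ 𝔤 := invGen_le hbr
  have hirrG : ∀ M : Submodule K V, (∀ y ∈ G, ∀ w ∈ M, y w ∈ M) → M = ⊥ ∨ M = ⊤ :=
    fun M hM => hirr M fun D hD hD2 w hw => hM D (mem_invGen hD hD2) w hw
  have hnd := nondeg_of_irr (G := G) invGen_br hirrG (fun y hy => htr y (hle hy))
  have h : Setup G (adj β) := by
    refine ⟨invGen_br, ?_, rk_adj β, fun y hy => hst y (hle hy), hnd, ?_, ?_⟩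
    · intro a b
      refine LinearMap.ext fun u => β.injective (LinearMap.ext fun v => ?_)
      rw [Module.End.mul_apply, adj_apply, adj_apply, adj_apply, Module.End.mul_apply]
    · intro L hL hL'
      exact invGen_le' (fun D hD hD2 => hL D (mem_invGen hD hD2) hD2) hL'
    · intro M hM
      rcases hirrG M hM with rfl | rfl
      · exact ⟨0, fun y _ => by rw [zero_mul, mul_zero], fun w => by simp, fun w hw => by
          rw [Submodule.mem_bot] at hw
          rw [hw, map_zero]⟩
      · exact ⟨1, fun y _ => by rw [one_mul, mul_one], fun w => trivial, fun w _ => rfl⟩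
  -- `N` lies in `G`
  have hNG : N ∈ G := by
    obtain ⟨a, ha, haz⟩ := exists_repr hnd ((LinearMap.trace K V).comp (LinearMap.mulLeft K N))
    have haz' : ∀ z ∈ G, trace K V ((N - a) * z) = 0 := by
      intro z hz
      rw [sub_mul, map_sub, ← haz z hz]
      exact sub_self _
    have hb : N - a ∈ 𝔤 := 𝔤.sub_mem hN (hle ha)
    have hI := invGen_idl hbr
    obtain ⟨s, hs⟩ := scalar_of_comm hirrG (c := N - a) (by
      intro z hz
      rw [← sub_eq_zero]
      refine hnd _ (hI.br _ hb z hz) fun z' hz' => ?_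
      have e1 := haz' _ (invGen_br z hz z' hz')
      have e3 : trace K V (z * (N - a) * z') = trace K V ((N - a) * z' * z) := by
        rw [mul_assoc, LinearMap.trace_mul_comm]
      have e4 : ((N - a) * z - z * (N - a)) * z' = (N - a) * z * z' - z * (N - a) * z' := by
        noncomm_ring
      have e5 : (N - a) * (z * z' - z' * z) = (N - a) * z * z' - (N - a) * z' * z := by
        noncomm_ring
      rw [e4, map_sub, e3, ← map_sub, ← e5, e1])
    have h1 := htr _ hb
    rw [hs, map_smul, LinearMap.trace_one, smul_eq_mul] at h1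
    have h2 : (finrank K V : K) ≠ 0 := Nat.cast_ne_zero.2 (finrank_pos (R := K) (M := V)).ne'
    rw [(mul_eq_zero.1 h1).resolve_right h2, zero_smul, sub_eq_zero] at hs
    rw [hs]
    exact ha
  have hst1 : adj β 1 = 1 := by
    refine LinearMap.ext fun u => β.injective (LinearMap.ext fun v => ?_)
    rw [adj_apply]
    rfl
  have hε : Eps G (adj β) 1 := ⟨fun y _ => by rw [one_mul, mul_one], one_mul 1, hst1⟩
  obtain ⟨D, E, e, f, F⟩ := exists_frame h hε hNG hN2 (by rwa [one_mul])
  have hcc : CommutComm G := by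
    intro c c' hc hc'
    obtain ⟨s, rfl⟩ := scalar_of_comm hirrG hc
    rw [smul_mul_assoc, mul_smul_comm, one_mul, mul_one]
  exact ⟨e, hle F.e_mem, D, hle F.D_mem, F.rk_eq_one h hε hcc, F.De, F.eD⟩

end Pool.Agent.W548.Adic
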