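import Mathlib
import Pool.Agent.W522.T.Defs
import Pool.Agent.H204R3.SP.Lie

/-!
# The conditions of the theorem
-/

namespace Pool.Agent.W548.Adic

open Module Pool.Agent.H204R3.SP Pool.Agent.W522.U Pool.Agent.W522.T

variable {K : Type*} [Field K] {X : Type*} [AddCommGroup X] [Module K X]
  {Γ : Type*} [Group Γ] (R : Representation K Γ X) (χ : Γ →* K)

/-- Some element `γ` of the group stabilises `U`, all its eigenvalues on `U` are simple, and every
two different eigenvalues `x`, `x'` of `γ` on `U` are separated by a homomorphism `f` from the
multiplicative group of `K` to the additive group (`f x ≠ f x'`) which takes at most two values on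
the eigenvalues of `γ` on `U`. -/
def HasSeparatingElement (U : Submodule K X) : Prop :=
  ∃ (γ : Γ) (h : ∀ u ∈ U, R γ u ∈ U),
    (∀ x, Module.End.HasEigenvalue ((R γ).restrict h) x →
      finrank K (Module.End.maxGenEigenspace ((R γ).restrict h) x) = 1) ∧
    ∀ x x', Module.End.HasEigenvalue ((R γ).restrict h) x →
      Module.End.HasEigenvalue ((R γ).restrict h) x' → x ≠ x' →
      ∃ (f : K → K) (a a' : K), IsLog f ∧ f x ≠ f x' ∧
        ∀ y, Module.End.HasEigenvalue ((R γ).restrict h) y → f y = a ∨ f y = a'

/-- The Lie algebra `lieT R χ` consists of the endomorphisms that kill all Tate forms. Its elements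
of square one act irreducibly on `U`. -/
def InvolutionsIrreducible (U : Submodule K X) : Prop :=
  ∀ M ≤ U, (∀ D ∈ lieT R χ, D * D = 1 → ∀ w ∈ M, D w ∈ M) → M = ⊥ ∨ M = U

/-- Some element `γ` of the group with `(γ - 1) ^ 2 = 0` is such that the rank of `γ - 1` on `U`
is odd. -/
def HasOddUnipotent (U : Submodule K X) : Prop :=
  ∃ γ : Γ, (R γ - 1) * (R γ - 1) = 0 ∧ Odd (finrank K (U.map (R γ - 1)))

/-- Every strongly irreducible subspace `U` has an alternating self-duality; it has a separating
element, or the involutions of the Lie algebra act irreducibly on it; and if its dimension is more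
than two there is a quadratic unipotent element of odd rank. -/
def OddConditions : Prop :=
  ∀ U, SI R U → AltDu R χ U ∧ (HasSeparatingElement R U ∨ InvolutionsIrreducible R χ U) ∧
    (2 < finrank K U → HasOddUnipotent R U)

end Pool.Agent.W548.Adic
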