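import Mathlib
import Pool.Agent.W522.U.S1

/-!
# Irreducibility of the Lie algebra generated by involutions
-/

set_option linter.unusedSectionVars false

namespace Pool.Agent.W548.Adic

open Module LinearMap Pool.Agent.W522.U

variable {K : Type*} [Field K] [CharZero K] {V : Type*} [AddCommGroup V] [Module K V]
  [FiniteDimensional K V] {G : Type*} [Group G] {r : Representation K G V}
  {𝔤 : Submodule K (End K V)} {n : ℕ} (b : Basis (Fin n) K V)

/-- `M` is stable under the involutions of `𝔤`. -/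
def InvStable (𝔤 : Submodule K (End K V)) (M : Submodule K V) : Prop :=
  ∀ D ∈ 𝔤, D * D = 1 → ∀ w ∈ M, D w ∈ M

/-- The basis is separated by the involutions. -/
def Sep (𝔤 : Submodule K (End K V)) (b : Basis (Fin n) K V) : Prop :=
  ∀ k l, k ≠ l → ∃ D ∈ 𝔤, D * D = 1 ∧ ∃ x : Fin n → K, (∀ j, D (b j) = x j • b j) ∧ x k ≠ x l

theorem repr_diag {D : End K V} {x : Fin n → K} (hD : ∀ j, D (b j) = x j • b j) (v : V)
    (j : Fin n) : b.repr (D v) j = x j * b.repr v j := by
  have h1 : D v = ∑ i, (x i * b.repr v i) • b i := by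
    conv_lhs => rw [← b.sum_repr v]
    rw [map_sum]
    refine Finset.sum_congr rfl fun i _ => ?_
    rw [map_smul, hD, smul_smul, mul_comm]
  rw [h1, b.repr_sum_self]

theorem mem_of_repr (hsep : Sep 𝔤 b) {M : Submodule K V} (hM : InvStable 𝔤 M) (m : ℕ) :
    ∀ v ∈ M, (b.repr v).support.card = m → ∀ k, b.repr v k ≠ 0 →
      b k ∈ M := by
  induction m using Nat.strong_induction_on with
  | _ m ih =>
    intro v hv hm k hk
    by_cases h : ∃ l, l ≠ k ∧ b.repr v l ≠ 0
    · obtain ⟨l, hlk, hl⟩ := h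
      obtain ⟨D, hD, hD2, x, hx, hkl⟩ := hsep k l (Ne.symm hlk)
      have h1 : ∀ j, b.repr (D v - x l • v) j = (x j - x l) * b.repr v j := by
        intro j
        rw [map_sub, map_smul, Finsupp.sub_apply, Finsupp.smul_apply, repr_diag b hx, smul_eq_mul]
        ring
      refine ih _ ?_ (D v - x l • v) (M.sub_mem (hM D hD hD2 v hv) (M.smul_mem _ hv)) rfl k ?_
      · rw [← hm]
        refine Finset.card_lt_card ⟨fun j hj => ?_, fun h2 => ?_⟩
        · rw [Finsupp.mem_support_iff] at hj ⊢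
          refine fun h3 => hj ?_
          rw [h1, h3, mul_zero]
        · have h3 := h2 (Finsupp.mem_support_iff.2 hl)
          rw [Finsupp.mem_support_iff, h1, sub_self, zero_mul] at h3
          exact h3 rfl
      · rw [h1]
        exact mul_ne_zero (sub_ne_zero.2 hkl) hk
    · push Not at h
      have h1 : v = b.repr v k • b k := by
        conv_lhs => rw [← b.sum_repr v]
        refine Finset.sum_eq_single k (fun l _ hl => ?_) fun h2 => absurd (Finset.mem_univ k) h2
        rw [h l hl, zero_smul]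
      rw [h1] at hv
      have h2 := M.smul_mem (b.repr v k)⁻¹ hv
      rwa [smul_smul, inv_mul_cancel₀ hk, one_smul] at h2

theorem eq_of_basis (hsep : Sep 𝔤 b) {M M' : Submodule K V} (hM : InvStable 𝔤 M)
    (h : ∀ k, b k ∈ M → b k ∈ M') : M ≤ M' := by
  intro v hv
  rw [← b.sum_repr v]
  refine Submodule.sum_mem _ fun k _ => ?_
  by_cases hk : b.repr v k = 0
  · rw [hk, zero_smul]
    exact M'.zero_mem
  · exact M'.smul_mem _ (h k (mem_of_repr b hsep hM _ v hv rfl k hk))

theorem finite_stable (hsep : Sep 𝔤 b) : Finite {M : Submodule K V // InvStable 𝔤 M} := by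
  refine Finite.of_injective (fun M => ({k | b k ∈ M.1} : Set (Fin n))) ?_
  intro M M' h
  have h1 : ∀ k, b k ∈ M.1 ↔ b k ∈ M'.1 := fun k => by
    have := congrArg (fun s : Set (Fin n) => k ∈ s) h
    exact Iff.of_eq this
  exact Subtype.ext (le_antisymm (eq_of_basis b hsep M.2 fun k => (h1 k).1)
    (eq_of_basis b hsep M'.2 fun k => (h1 k).2))

theorem stable_map (hconj : ∀ g, ∀ X ∈ 𝔤, r g * X * r g⁻¹ ∈ 𝔤) (g : G) {M : Submodule K V}
    (hM : InvStable 𝔤 M) : InvStable 𝔤 (M.map (r g)) := by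
  rintro D hD hD2 _ ⟨w, hw, rfl⟩
  have h1 := hconj g⁻¹ D hD
  rw [inv_inv] at h1
  have h2 : r g * r g⁻¹ = 1 := by rw [← map_mul, mul_inv_cancel, map_one]
  have h3 : (r g⁻¹ * D * r g) * (r g⁻¹ * D * r g) = 1 := by
    calc (r g⁻¹ * D * r g) * (r g⁻¹ * D * r g) = r g⁻¹ * D * (r g * r g⁻¹) * D * r g := by
          noncomm_ring
    _ = r g⁻¹ * (D * D) * r g := by rw [h2]; noncomm_ring
    _ = 1 := by rw [hD2, mul_one, ← map_mul, inv_mul_cancel, map_one]
  refine ⟨_, hM _ h1 h3 w hw, ?_⟩
  rw [← Module.End.mul_apply, ← Module.End.mul_apply]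
  congr 1
  calc r g * (r g⁻¹ * D * r g) = (r g * r g⁻¹) * D * r g := by noncomm_ring
  _ = D * r g := by rw [h2, one_mul]

/-- The involutions act irreducibly. -/
theorem inv_irr (hirr : Irr r) (hconj : ∀ g, ∀ X ∈ 𝔤, r g * X * r g⁻¹ ∈ 𝔤) (hsep : Sep 𝔤 b)
    (M : Submodule K V) (hM : InvStable 𝔤 M) : M = ⊥ ∨ M = ⊤ := by
  have hfin := finite_stable b hsep
  let act : MulAction G {M : Submodule K V // InvStable 𝔤 M} :=
    { smul := fun g M => ⟨M.1.map (r g), stable_map hconj g M.2⟩
      one_smul := by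
        intro M
        apply Subtype.ext
        change M.1.map (r 1) = M.1
        rw [map_one]
        exact Submodule.map_id M.1
      mul_smul := by
        intro g g' M
        apply Subtype.ext
        change M.1.map (r (g * g')) = (M.1.map (r g')).map (r g)
        rw [map_mul, ← Submodule.map_comp]
        rfl }
  let f := MulAction.toPermHom G {M : Submodule K V // InvStable 𝔤 M}
  have h1 : f.ker.FiniteIndex := inferInstance
  refine hirr f.ker h1 M fun g hg u hu => ?_
  have h2 : f g ⟨M, hM⟩ = ⟨M, hM⟩ := by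
    rw [MonoidHom.mem_ker.1 hg]
    rfl
  have h3 : M.map (r g) = M := congrArg Subtype.val h2
  rw [← h3]
  exact Submodule.mem_map_of_mem hu

end Pool.Agent.W548.Adic
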