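import Mathlib
import Pool.Agent.W522.T.C2
import Pool.Agent.W522.U.C7

/-!
# From the whole space to the representatives
-/

set_option linter.unusedSectionVars false

namespace Pool.Agent.W548.Adic

open Module Pool.Agent.H204R3.SP Pool.Agent.H204R3.GP Pool.Agent.W522.U Pool.Agent.W522.T

noncomputable section

variable {K : Type*} [Field K] [CharZero K] {X : Type*} [AddCommGroup X]
  [Module K X] [FiniteDimensional K X]
  {Γ : Type*} [Group Γ] {R : Representation K Γ X} {χ : Γ →* K}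
  (ω : X →ₗ[K] X →ₗ[K] K) (hnd : ∀ u, (∀ v, ω u v = 0) → u = 0)
  (hωR : ∀ g u v, ω (R g u) (R g v) = χ g * ω u v)

include hnd hωR in
/-- The endomorphisms that kill the Tate forms commute with those which commute with a subgroup of
finite index. -/
theorem comm_of_potential {Δ : Subgroup Γ} (hΔ : Δ.FiniteIndex) (P : Module.End K X)
    (hP : ∀ s ∈ Δ, ∀ v, P (R s v) = R s (P v)) {D : Module.End K X} (hD : D ∈ lieT R χ) (v : X) :
    D (P v) = P (D v) := by
  have hB : IsTate2 R χ (ω.comp P) := by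
    refine ⟨Δ, hΔ, fun s hs u v => ?_⟩
    rw [LinearMap.comp_apply, LinearMap.comp_apply, hP s hs, hωR]
  rw [← sub_eq_zero]
  apply hnd
  intro w
  have h1 := lieT_bil R χ hB hD v w
  have h2 := lieT_sp R χ ω hωR hD (P v) w
  rw [LinearMap.comp_apply, LinearMap.comp_apply] at h1
  rw [map_sub, LinearMap.sub_apply]
  linear_combination h2 - h1

variable {s : Type*} [Fintype s] [DecidableEq s] (W : s → Submodule K X) (Δ : Subgroup Γ)
  (hWΔ : ∀ i, ∀ g ∈ Δ, ∀ u ∈ W i, R g u ∈ W i)

include hnd hωR in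
theorem transfer (hss : HasProj R) (hΔ : Δ.FiniteIndex)
    (hWW : ∀ i j, Tw R (fun _ => 1) (W i) (W j) → i = j) {D : Module.End K X}
    (hD : D ∈ lieT R χ) :
    ∃ Z ∈ hh (fun i => resR R Δ (W i) (hWΔ i)) (χ.comp Δ.subtype),
      ∀ i (u : W i), ((Z i u : W i) : X) = D u := by
  choose P hP1 hP2 hP3 using fun i => hss Δ hΔ (W i) (hWΔ i)
  have hDW : ∀ i, ∀ u ∈ W i, D u ∈ W i := by
    intro i u hu
    have h1 := comm_of_potential ω hnd hωR hΔ (P i) (hP3 i) hD u
    rw [hP2 i u hu] at h1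
    rw [h1]
    exact hP1 i _
  have hP0 : ∀ i j, i ≠ j → ∀ u ∈ W i, P j u = 0 := by
    intro i j hij
    by_contra hcon
    push Not at hcon
    exact hij (hWW i j ⟨Δ, hΔ, P j, fun u _ => hP1 j u, hcon, fun g hg u _ => by
      rw [hP3 j g hg, one_smul]⟩)
  let Z : ∀ i, Module.End K (W i) := fun i => D.restrict (hDW i)
  have hZ : ∀ i (u : W i), ((Z i u : W i) : X) = D u := fun _ _ => rfl
  refine ⟨Z, ?_, hZ⟩
  rw [mem_hh]
  intro m φ hφ w
  let p : X →ₗ[K] ∀ i, W i := LinearMap.pi fun i => (P i).codRestrict (W i) (hP1 i)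
  have hp : ∀ x i, ((p x i : W i) : X) = P i x := fun _ _ => rfl
  have hsec : ∀ y : ∀ i, W i, p (∑ i, (y i : X)) = y := by
    intro y
    funext i
    apply Subtype.ext
    rw [hp, map_sum, Finset.sum_eq_single i, hP2 i _ (y i).2]
    · intro j _ hj
      exact hP0 j i hj _ (y j).2
    · intro h
      exact absurd (Finset.mem_univ i) h
  have hDsec : ∀ y : ∀ i, W i, p (D (∑ i, (y i : X))) = blk Z y := by
    intro y
    rw [map_sum, ← hsec (blk Z y)]
    congr 1
  have hφ' : IsTate R χ m (φ.compLinearMap fun _ => p) := by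
    obtain ⟨Δ', hΔ', h⟩ := hφ
    refine ⟨Δ'.map Δ.subtype, fi_map hΔ Δ' hΔ', ?_⟩
    rintro _ ⟨g, hg, rfl⟩ v
    have h2 := h g hg (fun k => p (v k))
    change φ (fun k => p (R g.1 (v k))) = χ g.1 ^ m * φ (fun k => p (v k))
    refine Eq.trans ?_ h2
    congr 1
    funext k i
    apply Subtype.ext
    change P i (R g.1 (v k)) = R g.1 (P i (v k))
    exact hP3 i g.1 g.2 _
  have h1 := hD m _ hφ' fun k => ∑ i, (w k i : X)
  rw [← h1]
  refine Finset.sum_congr rfl fun k _ => ?_
  rw [MultilinearMap.compLinearMap_apply]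
  congr 1
  funext l
  by_cases h : l = k
  · subst h
    rw [Function.update_self, Function.update_self, hDsec]
  · rw [Function.update_of_ne h, Function.update_of_ne h, hsec]

end

end Pool.Agent.W548.Adic
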