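import Mathlib
import Pool.Agent.W548.Adic.Defs
import Pool.Agent.W548.Adic.Core
import Pool.Agent.W548.Adic.Irred
import Pool.Agent.W548.Adic.Transfer
import Pool.Agent.W522.T.C2

/-!
# Transvections from elements of odd rank
-/

set_option linter.unusedSectionVars false

namespace Pool.Agent.W548.Adic

open Module Pool.Agent.H204R3.SP Pool.Agent.H204R3.GP Pool.Agent.W522.U Pool.Agent.W522.T
  Pool.Agent.W548.Odd

noncomputable section

variable {K : Type*} [Field K] [CharZero K] [IsAlgClosed K] {X : Type*} [AddCommGroup X]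
  [Module K X] [FiniteDimensional K X]
  {Γ : Type*} [Group Γ] {R : Representation K Γ X} {χ : Γ →* K}
  {s : Type*} [Fintype s] [DecidableEq s] (W : s → Submodule K X) (Δ : Subgroup Γ)
  (hWΔ : ∀ i, ∀ g ∈ Δ, ∀ u ∈ W i, R g u ∈ W i)

theorem two_aux {K : Type*} [Field K] {M F a a' p q t : K} (hp : p = a ∨ p = a')
    (hq : q = a ∨ q = a') (ht : t = a ∨ t = a') (hpq : M * p - F ≠ M * q - F) :
    M * t - F = M * p - F ∨ M * t - F = M * q - F := by
  rcases hp with h1 | h1 <;> rcases hq with h2 | h2 <;> rcases ht with h3 | h3 <;>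
    rw [h1, h2] at hpq <;> rw [h1, h2, h3]
  · exact Or.inl rfl
  · exact absurd rfl hpq
  · exact Or.inl rfl
  · exact Or.inr rfl
  · exact Or.inr rfl
  · exact Or.inl rfl
  · exact absurd rfl hpq
  · exact Or.inl rfl

/-- The component of the Lie algebra. -/
def alg (i : s) : Submodule K (Module.End K (W i)) :=
  (hh (fun i => resR R Δ (W i) (hWΔ i)) (χ.comp Δ.subtype)).map
    (LinearMap.proj i : (∀ i, Module.End K (W i)) →ₗ[K] Module.End K (W i))

theorem mem_alg {i : s} {y : Module.End K (W i)} (hy : y ∈ alg (χ := χ) W Δ hWΔ i) :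
    ∃ Z ∈ hh (fun i => resR R Δ (W i) (hWΔ i)) (χ.comp Δ.subtype), Z i = y := by
  obtain ⟨Z, hZ, rfl⟩ := hy
  exact ⟨Z, hZ, rfl⟩

theorem mem_alg' {Z : ∀ i, Module.End K (W i)}
    (hZ : Z ∈ hh (fun i => resR R Δ (W i) (hWΔ i)) (χ.comp Δ.subtype)) (i : s) :
    Z i ∈ alg (χ := χ) W Δ hWΔ i := ⟨Z, hZ, rfl⟩

theorem alg_br (i : s) : ∀ y ∈ alg (χ := χ) W Δ hWΔ i, ∀ z ∈ alg (χ := χ) W Δ hWΔ i,
    y * z - z * y ∈ alg (χ := χ) W Δ hWΔ i := by
  rintro _ ⟨Y, hY, rfl⟩ _ ⟨Z, hZ, rfl⟩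
  exact ⟨_, (lieFam_hh _ (χ.comp Δ.subtype)).br Y hY Z hZ, rfl⟩

theorem alg_conj (i : s) (g : Δ) : ∀ y ∈ alg (χ := χ) W Δ hWΔ i,
    resR R Δ (W i) (hWΔ i) g * y * resR R Δ (W i) (hWΔ i) g⁻¹ ∈ alg (χ := χ) W Δ hWΔ i := by
  rintro _ ⟨Y, hY, rfl⟩
  exact ⟨_, (lieFam_hh _ (χ.comp Δ.subtype)).conj g Y hY, rfl⟩

/-- The form on the component. -/
theorem exists_beta {i : s} (B : X →ₗ[K] X →ₗ[K] K)
    (hB0 : ∀ u ∈ W i, (∀ v ∈ W i, B u v = 0) → u = 0)
    (hB : ∀ g ∈ Δ, ∀ u ∈ W i, ∀ v ∈ W i, B (R g u) (R g v) = χ g * B u v) :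
    ∃ β : W i ≃ₗ[K] Dual K (W i), ∀ y ∈ alg (χ := χ) W Δ hWΔ i, ∀ u v,
      β (y u) v + β u (y v) = 0 := by
  let r : ∀ i, Representation K Δ (W i) := fun i => resR R Δ (W i) (hWΔ i)
  let B' : W i →ₗ[K] Dual K (W i) := B.compl₁₂ (W i).subtype (W i).subtype
  have hBinj : Function.Injective B' := by
    rw [injective_iff_map_eq_zero]
    intro u hu
    refine Subtype.ext (hB0 u u.2 fun v hv => ?_)
    exact congrArg (fun f : Dual K (W i) => f ⟨v, hv⟩) hu
  let β : W i ≃ₗ[K] Dual K (W i) := LinearEquiv.ofBijective B' ⟨hBinj,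
    (LinearMap.injective_iff_surjective_of_finrank_eq_finrank
      Subspace.dual_finrank_eq.symm).1 hBinj⟩
  refine ⟨β, ?_⟩
  rintro _ ⟨Z, hZ, rfl⟩ u v
  have h4 : IsTate2 (piRep r) (χ.comp Δ.subtype)
      (B'.compl₁₂ (LinearMap.proj i) (LinearMap.proj i)) := by
    refine ⟨⊤, inferInstance, fun g _ u v => ?_⟩
    exact hB g.1 g.2 (u i) (u i).2 (v i) (v i).2
  have h5 := lieT_bil _ _ h4 ((mem_hh _ _ Z).1 hZ) (Pi.single i u) (Pi.single i v)
  rw [blk_single, blk_single] at h5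
  have h6 : B' (Z i u) v + B' u (Z i v) = 0 := by simpa using h5
  exact h6

/-- Elements with separated eigenvalues: the involutions act irreducibly. -/
theorem irr_of_sep (hΔ : Δ.FiniteIndex) {i : s}
    (hirr : Irr (resR R Δ (W i) (hWΔ i))) (hS : HasSeparatingElement R (W i))
    (B : X →ₗ[K] X →ₗ[K] K) (hB0 : ∀ u ∈ W i, (∀ v ∈ W i, B u v = 0) → u = 0)
    (hB : ∀ g ∈ Δ, ∀ u ∈ W i, ∀ v ∈ W i, B (R g u) (R g v) = χ g * B u v)
    (M : Submodule K (W i))
    (hM : ∀ D ∈ alg (χ := χ) W Δ hWΔ i, D * D = 1 → ∀ w ∈ M, D w ∈ M) : M = ⊥ ∨ M = ⊤ := by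
  obtain ⟨β, hsk⟩ := exists_beta W Δ hWΔ B hB0 hB
  have hsk' : ∀ Z ∈ hh (fun i => resR R Δ (W i) (hWΔ i)) (χ.comp Δ.subtype), ∀ u v,
      β (Z i u) v + β u (Z i v) = 0 := fun Z hZ => hsk _ (mem_alg' W Δ hWΔ hZ i)
  obtain ⟨γ, hU, hs1, hs2⟩ := hS
  obtain ⟨n, b, x, hb, hev, huniq⟩ := exists_gen_basis ((R γ).restrict hU)
  have hinj : ∀ k l, x k = x l → k = l := by
    intro k l hkl
    obtain ⟨k₀, -, hk₀⟩ := huniq (x l) (hs1 _ (hev l))
    rw [hk₀ k hkl, hk₀ l rfl]
  have hsep : Sep (alg (χ := χ) W Δ hWΔ i) b := by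
    intro k l hkl
    obtain ⟨f, a, a', hf, hfx, hfa⟩ := hs2 _ _ (hev k) (hev l) fun h => hkl (hinj _ _ h)
    obtain ⟨Y, hY, M, F, hM, hYb⟩ := toral_family (χ := χ) W Δ hWΔ hΔ hU b x hb hf
    obtain ⟨y, hy⟩ : ∃ y : Fin n → K, y = fun j => M * f (x j) - F := ⟨_, rfl⟩
    have hYb' : ∀ j, Y i (b j) = y j • b j := fun j => by rw [hYb, hy]
    have hykl : y k ≠ y l := by
      intro h
      rw [hy] at h
      dsimp only at h
      apply hfx
      apply mul_left_cancel₀ hM
      linear_combination h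
    have htwo : ∀ j, y j = y k ∨ y j = y l := by
      intro j
      have e1 := hfa _ (hev k)
      have e2 := hfa _ (hev l)
      have e3 := hfa _ (hev j)
      rw [hy]
      dsimp only
      have e4 : M * f (x k) - F ≠ M * f (x l) - F := by
        rw [hy] at hykl
        exact hykl
      exact two_aux e1 e2 e3 e4
    -- the eigenvalues are opposite
    have hopp : ∀ j, ∃ j', y j + y j' = 0 := by
      intro j
      by_contra hcon
      push Not at hcon
      have h4 : β (b j) = 0 := by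
        refine b.ext fun j' => ?_
        have h5 := hsk' Y hY (b j) (b j')
        rw [hYb', hYb', map_smul, map_smul, LinearMap.smul_apply, smul_eq_mul, smul_eq_mul,
          ← add_mul] at h5
        rw [LinearMap.zero_apply]
        exact (mul_eq_zero.1 h5).resolve_left (hcon j')
      exact b.ne_zero j (β.map_eq_zero_iff.1 h4)
    have hkl0 : y k + y l = 0 := by
      obtain ⟨j, hj⟩ := hopp k
      obtain ⟨j', hj'⟩ := hopp l
      rcases htwo j with h4 | h4
      · rcases htwo j' with h5 | h5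
        · rw [h5] at hj'
          linear_combination hj'
        · exfalso
          rw [h4, ← two_mul] at hj
          rw [h5, ← two_mul] at hj'
          have e1 := (mul_eq_zero.1 hj).resolve_left two_ne_zero
          have e2 := (mul_eq_zero.1 hj').resolve_left two_ne_zero
          exact hykl (by rw [e1, e2])
      · rw [h4] at hj
        exact hj
    have hyk : y k ≠ 0 := by
      intro h
      apply hykl
      rw [h, zero_add] at hkl0
      rw [h, hkl0]
    refine ⟨(y k)⁻¹ • Y i, Submodule.smul_mem _ _ (mem_alg' W Δ hWΔ hY i), ?_, fun j => (y k)⁻¹ * y j, ?_, ?_⟩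
    · refine b.ext fun j => ?_
      rw [Module.End.mul_apply, LinearMap.smul_apply, LinearMap.smul_apply, hYb', smul_smul,
        map_smul, hYb', smul_smul, smul_smul, Module.End.one_apply]
      have h4 : (y k)⁻¹ * y j * ((y k)⁻¹ * y j) = 1 := by
        rcases htwo j with h5 | h5
        · rw [h5, inv_mul_cancel₀ hyk, one_mul]
        · have h6 : y l = -y k := by linear_combination hkl0
          rw [h5, h6, mul_neg, inv_mul_cancel₀ hyk, neg_mul_neg, one_mul]
      rw [show (y k)⁻¹ * ((y k)⁻¹ * y j) * y j = (y k)⁻¹ * y j * ((y k)⁻¹ * y j) by ring, h4,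
        one_smul]
    · intro j
      rw [LinearMap.smul_apply, hYb', smul_smul]
    · intro h
      exact hykl (mul_left_cancel₀ (inv_ne_zero hyk) h)
  exact inv_irr b hirr (fun g X hX => alg_conj W Δ hWΔ i g X hX) hsep M hM

/-- If the involutions which kill the Tate forms act irreducibly on the component, so do the
involutions of the component of the Lie algebra. -/
theorem irr_of_inv (ω : X →ₗ[K] X →ₗ[K] K) (hnd : ∀ u, (∀ v, ω u v = 0) → u = 0)
    (hωR : ∀ g u v, ω (R g u) (R g v) = χ g * ω u v) (hss : HasProj R) (hΔ : Δ.FiniteIndex)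
    (hWW : ∀ i j, Tw R (fun _ => 1) (W i) (W j) → i = j) {i : s}
    (hI : InvolutionsIrreducible R χ (W i)) (M : Submodule K (W i))
    (hM : ∀ D ∈ alg (χ := χ) W Δ hWΔ i, D * D = 1 → ∀ w ∈ M, D w ∈ M) : M = ⊥ ∨ M = ⊤ := by
  have hinj : Function.Injective (W i).subtype := Submodule.injective_subtype _
  rcases hI (M.map (W i).subtype) (Submodule.map_subtype_le _ _) (by
    rintro D hD hD2 _ ⟨w, hw, rfl⟩
    obtain ⟨Z, hZ, hZD⟩ := transfer ω hnd hωR W Δ hWΔ hss hΔ hWW hD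
    refine ⟨Z i w, hM _ (mem_alg' W Δ hWΔ hZ i) ?_ w hw, hZD i w⟩
    refine LinearMap.ext fun u => Subtype.ext ?_
    rw [Module.End.mul_apply, hZD, hZD, ← Module.End.mul_apply, hD2]
    rfl) with h | h
  · left
    apply Submodule.map_injective_of_injective hinj
    rw [h, Submodule.map_bot]
  · right
    apply Submodule.map_injective_of_injective hinj
    rw [h, Submodule.map_subtype_top]

/-- In dimension two there is an element of rank one. -/
theorem exists_dim_two {V : Type*} [AddCommGroup V] [Module K V] [FiniteDimensional K V]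
    (h2 : finrank K V = 2) {𝔤 : Submodule K (Module.End K V)}
    (hbr : ∀ y ∈ 𝔤, ∀ z ∈ 𝔤, y * z - z * y ∈ 𝔤)
    (htr : ∀ y ∈ 𝔤, LinearMap.trace K V y = 0)
    (hirr : ∀ M : Submodule K V, (∀ D ∈ 𝔤, D * D = 1 → ∀ w ∈ M, D w ∈ M) → M = ⊥ ∨ M = ⊤) :
    ∃ N ∈ 𝔤, N * N = 0 ∧ Odd (rk N) := by
  have hI : IsIdl 𝔤 𝔤 := ⟨le_rfl, hbr⟩
  have hnt : Nontrivial V := Module.nontrivial_of_finrank_pos (R := K) (by omega)
  have hinv : ∃ D ∈ 𝔤, D * D = 1 := by
    by_contra hcon
    push Not at hcon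
    obtain ⟨v, hv⟩ := exists_ne (0 : V)
    rcases hirr (K ∙ v) (fun D hD hD2 => absurd hD2 (hcon D hD)) with h | h
    · exact hv (Submodule.span_singleton_eq_bot.1 h)
    · have h3 := finrank_span_singleton (K := K) hv
      rw [h, finrank_top, h2] at h3
      omega
  obtain ⟨D, hD, hD2⟩ := hinv
  have h1 : (1 - D) * (1 + D) = 0 := by
    rw [sub_mul, mul_add, mul_add, hD2, one_mul, mul_one, one_mul]
    abel
  have h1' : (1 + D) * (1 - D) = 0 := by
    rw [add_mul, mul_sub, mul_sub, hD2, one_mul, mul_one, one_mul]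
    abel
  have hone : LinearMap.trace K V 1 = 2 := by
    rw [LinearMap.trace_one, h2]
    norm_num
  have hex : ∃ D' ∈ 𝔤, D' * D' = 1 ∧ ∃ w ∈ LinearMap.range (1 + D), D' w ∉ LinearMap.range (1 + D) := by
    by_contra hcon
    push Not at hcon
    rcases hirr _ hcon with h | h
    · have h3 : D = -1 := by
        have := LinearMap.range_eq_bot.1 h
        exact eq_neg_of_add_eq_zero_right this
      have h4 := htr D hD
      rw [h3, map_neg, hone] at h4
      norm_num at h4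
    · have h3 : D = 1 := by
        refine LinearMap.ext fun v => ?_
        obtain ⟨u, rfl⟩ := LinearMap.range_eq_top.1 h v
        have := LinearMap.congr_fun h1 u
        rw [Module.End.mul_apply, LinearMap.sub_apply, Module.End.one_apply,
          LinearMap.zero_apply, sub_eq_zero] at this
        exact this.symm
      have h4 := htr D hD
      rw [h3, hone] at h4
      norm_num at h4
  obtain ⟨D', hD', -, w, ⟨u, rfl⟩, hw⟩ := hex
  have hN : (1 - D) * D' * (1 + D) ∈ 𝔤 := hI.dn hD hD2 hD'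
  have hN2 : ((1 - D) * D' * (1 + D)) * ((1 - D) * D' * (1 + D)) = 0 := by
    calc ((1 - D) * D' * (1 + D)) * ((1 - D) * D' * (1 + D)) =
        (1 - D) * D' * ((1 + D) * (1 - D)) * (D' * (1 + D)) := by noncomm_ring
    _ = 0 := by rw [h1', mul_zero, zero_mul]
  refine ⟨_, hN, hN2, ?_⟩
  set N := (1 - D) * D' * (1 + D) with hNdef
  have hne : N u ≠ 0 := by
    intro h
    rw [hNdef, Module.End.mul_apply, Module.End.mul_apply, LinearMap.sub_apply,
      Module.End.one_apply, sub_eq_zero] at h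
    apply hw
    refine ⟨(2 : K)⁻¹ • D' ((1 + D) u), ?_⟩
    rw [LinearMap.add_apply, Module.End.one_apply, map_smul, ← h, ← two_smul K, smul_smul,
      mul_inv_cancel₀ two_ne_zero, one_smul]
  have hrn := LinearMap.finrank_range_add_finrank_ker N
  have hle : LinearMap.range N ≤ LinearMap.ker N := by
    rintro _ ⟨v, rfl⟩
    rw [LinearMap.mem_ker, ← Module.End.mul_apply, hN2, LinearMap.zero_apply]
  have hle' := Submodule.finrank_mono hle
  have hpos : 0 < finrank K (LinearMap.range N) := by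
    rw [Module.finrank_pos_iff_exists_ne_zero]
    exact ⟨⟨N u, ⟨u, rfl⟩⟩, fun h => hne (congrArg Subtype.val h)⟩
  have hrk : rk N = 1 := by
    unfold rk
    omega
  rw [hrk]
  exact odd_one

/-- Elements of odd rank produce transvections. -/
theorem nil_odd (hΔ : Δ.FiniteIndex) {i : s} (h2 : 2 ≤ finrank K (W i))
    (hirr' : ∀ M : Submodule K (W i),
      (∀ D ∈ alg (χ := χ) W Δ hWΔ i, D * D = 1 → ∀ w ∈ M, D w ∈ M) → M = ⊥ ∨ M = ⊤)
    (hO : 2 < finrank K (W i) → HasOddUnipotent R (W i))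
    (hχ : ∀ γ : Γ, (R γ - 1) * (R γ - 1) = 0 → ∀ x, (R γ - 1) x ≠ 0 → χ γ = 1)
    (B : X →ₗ[K] X →ₗ[K] K) (hB0 : ∀ u ∈ W i, (∀ v ∈ W i, B u v = 0) → u = 0)
    (hB : ∀ g ∈ Δ, ∀ u ∈ W i, ∀ v ∈ W i, B (R g u) (R g v) = χ g * B u v) :
    ∃ Z ∈ h0 (fun i => resR R Δ (W i) (hWΔ i)) (χ.comp Δ.subtype),
      ∃ (u : W i) (φ : Dual K (W i)), u ≠ 0 ∧ φ ≠ 0 ∧ φ u = 0 ∧ Z i = φ.smulRight u := by
  have hnt : Nontrivial (W i) := Module.nontrivial_of_finrank_pos (R := K) (by omega)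
  let r : ∀ i, Representation K Δ (W i) := fun i => resR R Δ (W i) (hWΔ i)
  have hr : ∀ (i : s) (g : Δ) (u : W i), ((r i g u : W i) : X) = R g.1 u := fun _ _ _ => rfl
  obtain ⟨β, hsk⟩ := exists_beta W Δ hWΔ B hB0 hB
  have hbr := alg_br (χ := χ) W Δ hWΔ i
  -- the unipotent element
  obtain ⟨N, hN, hN2, hNodd⟩ : ∃ N ∈ alg (χ := χ) W Δ hWΔ i, N * N = 0 ∧ Odd (rk N) := by
    rcases (show finrank K (W i) = 2 ∨ 2 < finrank K (W i) by omega) with hd | hd
    · exact exists_dim_two hd hbr (trace_zero β hsk) hirr'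
    replace hO := hO hd
    obtain ⟨γ, hγ2, hodd⟩ := hO
    have hχγ : χ γ = 1 := by
      have h3 : 0 < finrank K ((W i).map (R γ - 1)) := hodd.pos
      have h4 : Nontrivial ((W i).map (R γ - 1)) := Module.nontrivial_of_finrank_pos h3
      obtain ⟨⟨v, hv⟩, hv0⟩ := exists_ne (0 : (W i).map (R γ - 1))
      obtain ⟨x, -, hxv⟩ := id hv
      refine hχ γ hγ2 x ?_
      rw [hxv]
      exact fun h => hv0 (Subtype.ext h)
    obtain ⟨M, hM0, hM⟩ := exists_pow_mem Δ hΔ γ
    have hMK : (M : K) ≠ 0 := Nat.cast_ne_zero.2 hM0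
    let g : Δ := ⟨γ ^ M, hM⟩
    let N : ∀ j, Module.End K (W j) := fun j => r j g - 1
    have hN : ∀ (j : s) (y : W j), ((N j y : W j) : X) = (M : K) • (R γ - 1) (y : X) := by
      intro j y
      change ((r j g y - y : W j) : X) = _
      rw [Submodule.coe_sub, hr]
      change R (γ ^ M) _ - _ = _
      rw [unip_pow R γ hγ2, LinearMap.add_apply, LinearMap.smul_apply, Module.End.one_apply,
        add_sub_cancel_left]
    have hNN : ∀ j, N j * N j = 0 := by
      intro j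
      refine LinearMap.ext fun y => Subtype.ext ?_
      rw [Module.End.mul_apply, hN, hN, map_smul, ← Module.End.mul_apply, hγ2]
      simp
    have hblk : blk N = piRep r g - 1 := by
      refine LinearMap.ext fun y => ?_
      funext j
      rfl
    have hsq : (piRep r g - 1) * (piRep r g - 1) = 0 := by
      rw [← hblk]
      refine LinearMap.ext fun y => ?_
      funext j
      exact congrArg (fun f : Module.End K (W j) => f (y j)) (hNN j)
    have hmem : N ∈ hh r (χ.comp Δ.subtype) := by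
      rw [mem_hh, hblk]
      refine unip_lieT _ _ g hsq ?_
      change χ (γ ^ M) = 1
      rw [map_pow, hχγ, one_pow]
    refine ⟨N i, mem_alg' W Δ hWΔ hmem i, hNN i, ?_⟩
    have h3 : (LinearMap.range (N i)).map (W i).subtype = (W i).map (R γ - 1) := by
      ext v
      constructor
      · rintro ⟨_, ⟨y, rfl⟩, rfl⟩
        change ((N i y : W i) : X) ∈ _
        rw [hN]
        exact Submodule.smul_mem _ _ (Submodule.mem_map_of_mem y.2)
      · rintro ⟨y, hy, rfl⟩
        refine ⟨N i ((M : K)⁻¹ • ⟨y, hy⟩), ⟨_, rfl⟩, ?_⟩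
        change ((N i ((M : K)⁻¹ • ⟨y, hy⟩) : W i) : X) = _
        rw [hN, Submodule.coe_smul, map_smul, smul_smul, mul_inv_cancel₀ hMK, one_smul]
    have h4 : rk (N i) = finrank K ((W i).map (R γ - 1)) := by
      rw [← h3]
      exact (LinearEquiv.finrank_eq (Submodule.equivMapOfInjective _
        (Submodule.injective_subtype _) _))
    rw [h4]
    exact hodd
  obtain ⟨e, he, D, hD, hrk, hDe, heD⟩ := exists_rank_one β hbr hsk hirr' hN hN2 hNodd
  obtain ⟨Z, hZ, rfl⟩ := mem_alg W Δ hWΔ he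
  obtain ⟨Y, hY, rfl⟩ := mem_alg W Δ hWΔ hD
  refine ⟨(2 : K)⁻¹ • Pool.Agent.W522.T.brk Y Z, Submodule.smul_mem _ _ (brk_mem_h0 r _ hY hZ), ?_⟩
  have hZi : ((2 : K)⁻¹ • Pool.Agent.W522.T.brk Y Z) i = Z i := by
    change (2 : K)⁻¹ • (Y i * Z i - Z i * Y i) = _
    rw [hDe, heD, sub_neg_eq_add, ← two_smul K, smul_smul, inv_mul_cancel₀ two_ne_zero, one_smul]
  rw [hZi]
  unfold rk at hrk
  obtain ⟨⟨v, hv⟩, hv0, hspan⟩ := finrank_eq_one_iff'.1 hrk
  obtain ⟨x0, hx0⟩ := id hv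
  have hv0' : v ≠ 0 := fun h => hv0 (Subtype.ext h)
  obtain ⟨f, hf⟩ : ∃ f : Dual K (W i), f v = 1 := by
    obtain ⟨f, hf⟩ : ∃ f : Dual K (W i), f v ≠ 0 := by
      by_contra h
      push Not at h
      exact hv0' ((Module.forall_dual_apply_eq_zero_iff K _).1 h)
    exact ⟨(f v)⁻¹ • f, by
      rw [LinearMap.smul_apply, smul_eq_mul, inv_mul_cancel₀ hf]⟩
  have hZφ : Z i = (f.comp (Z i)).smulRight v := by
    refine LinearMap.ext fun y => ?_
    obtain ⟨c, hc⟩ := hspan ⟨Z i y, ⟨y, rfl⟩⟩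
    have h6 : c • v = Z i y := congrArg Subtype.val hc
    rw [LinearMap.smulRight_apply, LinearMap.comp_apply, ← h6, map_smul, hf, smul_eq_mul, mul_one]
  have hφ0 : f.comp (Z i) ≠ 0 := by
    intro h
    have h1 := congrArg (fun φ : Dual K (W i) => φ x0) h
    rw [LinearMap.comp_apply, hx0, hf, LinearMap.zero_apply] at h1
    exact one_ne_zero h1
  refine ⟨v, f.comp (Z i), hv0', hφ0, ?_, hZφ⟩
  have h3 := Pool.Agent.W522.U.trace_rk v (f.comp (Z i))
  rw [← hZφ] at h3
  rw [← h3]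
  have h4 : IsNilpotent (Z i) := ⟨2, by rw [pow_two]; exact sq_zero_of_up hDe heD⟩
  exact (LinearMap.isNilpotent_trace_of_isNilpotent h4).eq_zero

end

end Pool.Agent.W548.Adic
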