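import Mathlib
import Pool.Agent.W522.T.C2
import Pool.Agent.W522.T.B6
import Pool.Agent.W522.T.C3
import Pool.Agent.W522.U.C9
import Pool.Agent.W548.Adic.Nil

/-!
# The theorem over an algebraically closed field
-/

set_option linter.unusedSectionVars false

namespace Pool.Agent.W548.Adic

open Module Pool.Agent.H204R3.SP Pool.Agent.H204R3.GP Pool.Agent.W522.U Pool.Agent.W522.T

noncomputable section

variable {K : Type*} [Field K] [CharZero K] {X : Type*} [AddCommGroup X] [Module K X]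
  [FiniteDimensional K X]
  {Γ : Type*} [Group Γ] {R : Representation K Γ X} {χ : Γ →* K}
  (ω : X →ₗ[K] X →ₗ[K] K) (hnd : ∀ u, (∀ v, ω u v = 0) → u = 0)
  (hωR : ∀ g u v, ω (R g u) (R g v) = χ g * ω u v) (hC : OddConditions R χ)

theorem altDu_du {U : Submodule K X} (h : AltDu R χ U) : Du R χ U U := by
  obtain ⟨Δ, hΔ, B, hB0, -, hB⟩ := h
  exact ⟨Δ, hΔ, B, hB0, hB⟩

/-- A subspace with a nonzero alternating pairing has dimension at least two. -/
theorem two_le_of_alt {U : Submodule K X} (h : AltDu R χ U) : 2 ≤ finrank K U := by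
  obtain ⟨-, -, B, ⟨u, hu, v, hv, huv⟩, halt, -⟩ := h
  by_contra hcon
  have h1 : finrank K U ≤ 1 := by omega
  have h2 : u ≠ 0 := by
    rintro rfl
    exact huv (by rw [map_zero, LinearMap.zero_apply])
  obtain ⟨⟨w, hw⟩, hspan⟩ := finrank_le_one_iff.1 h1
  obtain ⟨c, hc⟩ := hspan ⟨u, hu⟩
  obtain ⟨d, hd⟩ := hspan ⟨v, hv⟩
  have hc' : c • w = u := congrArg Subtype.val hc
  have hd' : d • w = v := congrArg Subtype.val hd
  apply huv
  rw [← hc', ← hd', map_smul, map_smul, LinearMap.smul_apply, halt w hw, smul_zero, smul_zero]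

include hnd hωR hC in
theorem main_E [IsAlgClosed K] (hss : HasProj R) {s : ℕ} (W : Fin s → Submodule K X) (hW : ∀ i, SI R (W i))
    (hWW : ∀ i j, Tw R (fun _ => 1) (W i) (W j) → i = j)
    (st : Fin s → Fin s) (hDu' : ∀ i j, Du R χ (W i) (W j) → j = st i) :
    ∃ (Δ : Subgroup Γ) (_ : Δ.FiniteIndex) (hWΔ : ∀ i, ∀ g ∈ Δ, ∀ u ∈ W i, R g u ∈ W i),
      ∀ (m : ℕ) (φ : MultilinearMap K (fun _ : Fin m × Fin 2 => ∀ i, W i) K),
        IsTate (piRep (fun i => resR R Δ (W i) (hWΔ i))) (χ.comp Δ.subtype) m φ →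
        φ ∈ Submodule.span K (PT (piRep (fun i => resR R Δ (W i) (hWΔ i)))
          (χ.comp Δ.subtype) m) := by
  classical
  choose D hDfi hDs using fun i => (hW i).2.1
  have hst1 : ∀ i, st i = i := fun i => (hDu' _ _ (altDu_du (hC _ (hW i)).1)).symm
  have hst : ∀ i, st (st i) = i := fun i => by rw [hst1, hst1]
  choose D' hD' B hB0 hBa hB using fun i => (hC _ (hW i)).1
  let Δ : Subgroup Γ := ⨅ i, D i ⊓ D' i
  have hΔ : Δ.FiniteIndex := Subgroup.finiteIndex_iInf (fun i => inferInstance)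
  have hm : ∀ g ∈ Δ, ∀ i, g ∈ D i ∧ g ∈ D' i := fun g hg i => Subgroup.mem_iInf.1 hg i
  have hWΔ : ∀ i, ∀ g ∈ Δ, ∀ u ∈ W i, R g u ∈ W i := fun i g hg u hu => hDs i g (hm g hg i).1 u hu
  have hBalt : ∀ i, st i = i → ∀ u ∈ W i, B i u u = 0 := fun i _ => hBa i
  have hBl : ∀ i j, j = st i → ∀ u ∈ W i, (∀ v ∈ W j, B i u v = 0) → u = 0 := by
    rintro i j hj
    rw [hst1] at hj
    subst hj
    exact du_left (hW _) (hW _).2.1 (hD' _) (hB0 _) (hB _)
  have hBr : ∀ i j, j = st i → ∀ v ∈ W j, (∀ u ∈ W i, B i u v = 0) → v = 0 := by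
    rintro i j hj
    rw [hst1] at hj
    subst hj
    exact du_right (hW _).2.1 (hW _) (hD' _) (hB0 _) (hB _)
  have hBs : ∀ i j, j = st i → ∀ g ∈ Δ, ∀ u ∈ W i, ∀ v ∈ W j,
      B i (R g u) (R g v) = χ g * B i u v := by
    rintro i j hj g hg
    rw [hst1] at hj
    subst hj
    exact hB _ g (hm g hg _).2
  let r : ∀ i, Representation K Δ (W i) := fun i => resR R Δ (W i) (hWΔ i)
  have hr : ∀ (i : Fin s) (g : Δ) (u : W i), ((r i g u : W i) : X) = R g.1 u := fun _ _ _ => rfl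
  -- the conditions
  have hsim : ∀ (g : Δ) u v, pf W st B (piRep r g u) (piRep r g v) =
      (χ.comp Δ.subtype) g * pf W st B u v := by
    intro g u v
    rw [pf_apply, pf_apply, Finset.mul_sum]
    refine Finset.sum_congr rfl fun i _ => ?_
    rw [Finset.mul_sum]
    refine Finset.sum_congr rfl fun j _ => ?_
    rw [piRep_apply, piRep_apply, hr, hr]
    change _ = χ g.1 * _
    unfold cf
    by_cases h : j = st i
    · rw [if_pos h]
      rcases lt_trichotomy i j with h1 | h1 | h1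
      · rw [if_pos h1]
        exact hBs i j h g.1 g.2 _ (u i).2 _ (v j).2
      · rw [if_neg (not_lt.2 h1.ge), if_neg (not_lt.2 h1.le)]
        exact hBs i j h g.1 g.2 _ (u i).2 _ (v j).2
      · rw [if_neg (not_lt.2 h1.le), if_pos h1, LinearMap.neg_apply, LinearMap.neg_apply,
          LinearMap.neg_apply, LinearMap.neg_apply, LinearMap.flip_apply, LinearMap.flip_apply,
          hBs j i (by rw [h, hst]) g.1 g.2 _ (v j).2 _ (u i).2, mul_neg]
    · rw [if_neg h, LinearMap.zero_apply, LinearMap.zero_apply, LinearMap.zero_apply,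
        LinearMap.zero_apply, mul_zero]
  have hor : ∀ i j, j ≠ st i → ∀ (u : W i) (v : W j),
      pf W st B (Pi.single i u) (Pi.single j v) = 0 := by
    intro i j hij u v
    rw [pf_single]
    unfold cf
    rw [if_neg hij, LinearMap.zero_apply, LinearMap.zero_apply]
  have htw : ∀ i j, i ≠ j → 2 ≤ finrank K (W i) → 2 ≤ finrank K (W j) →
      (j = st i → 2 < finrank K (W i)) →
      ∀ (T : W i →ₗ[K] W j) (ψ : Δ → K), (∀ g u, T (r i g u) = ψ g • r j g (T u)) → T = 0 := by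
    intro i j hij hi hj h2f T ψ hT
    by_contra hT0
    obtain ⟨p, hp⟩ := exists_pr (W i)
    let ψ' : Γ → K := fun g => if h : g ∈ Δ then ψ ⟨g, h⟩ else 1
    have htw : Tw R ψ' (W i) (W j) := by
      refine ⟨Δ, hΔ, (W j).subtype.comp (T.comp p), fun u _ => SetLike.coe_mem _, ?_, ?_⟩
      · by_contra hcon
        push Not at hcon
        apply hT0
        ext u
        have h1 := hcon u u.2
        rw [LinearMap.comp_apply, LinearMap.comp_apply, hp] at h1
        exact h1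
      · intro g hg u hu
        have h1 := hT ⟨g, hg⟩ ⟨u, hu⟩
        have h2 : p (R g u) = r i ⟨g, hg⟩ ⟨u, hu⟩ := hp (r i ⟨g, hg⟩ ⟨u, hu⟩)
        have h3 : p u = ⟨u, hu⟩ := hp ⟨u, hu⟩
        have h4 : ψ' g = ψ ⟨g, hg⟩ := dif_pos hg
        rw [LinearMap.comp_apply, LinearMap.comp_apply, LinearMap.comp_apply,
          LinearMap.comp_apply, h2, h3, h1, h4]
        rfl
    exact hij (hWW _ _ (sp_twist (hW i) (hW j) (altDu_du (hC _ (hW i)).1) (altDu_du (hC _ (hW j)).1) htw))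
  have hirr : ∀ i, Irr (r i) := fun i => irr_res (hW i) hΔ (hWΔ i)
  have hnil : ∀ i, 2 ≤ finrank K (W i) → ∃ Z ∈ h0 r (χ.comp Δ.subtype),
      ∃ (u : W i) (φ : Dual K (W i)), u ≠ 0 ∧ φ ≠ 0 ∧ φ u = 0 ∧ Z i = φ.smulRight u := by
    intro i hi
    have hCi := hC _ (hW i)
    refine nil_odd W Δ hWΔ hΔ hi (fun M hM => ?_) hCi.2.2
      (fun γ h2 x hx => unip_chi ω hnd hωR γ h2 hx) (B i)
      (hBl i i (hst1 i).symm) (hBs i i (hst1 i).symm)
    rcases hCi.2.1 with hS | hI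
    · exact irr_of_sep W Δ hWΔ hΔ (hirr i) hS (B i) (hBl i i (hst1 i).symm)
        (hBs i i (hst1 i).symm) M hM
    · exact irr_of_inv W Δ hWΔ ω hnd hωR hss hΔ hWW hI M hM
  have hdet : ∀ a : Fin s → ℤ, (∀ i, a (st i) = -a i) →
      (∀ g : Δ, ∏ i, LinearMap.det (r i g) ^ a i = 1) → a = 0 := by
    intro a ha _
    funext i
    have h1 := ha i
    rw [hst1] at h1
    change a i = 0
    omega
  refine ⟨Δ, hΔ, hWΔ, fun m φ hφ => ?_⟩
  exact main_pi (pf W st B) (pf_alt W st B hst hBalt) (pf_nondeg W st B hst hBl hBr) hsim st hst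
    hor htw (fun i _ => hirr i) hnil hdet (hasProj_pi hirr) φ hφ

include hnd hωR hC in
/-- The theorem over an algebraically closed field. -/
theorem main_X [IsAlgClosed K] (hss : HasProj R)
    {m : ℕ} (φ : MultilinearMap K (fun _ : Fin m × Fin 2 => X) K) (hφ : IsTate R χ m φ) :
    φ ∈ Submodule.span K (PT R χ m) := by
  obtain ⟨s, W, hW, hWW, hall⟩ := exists_reps hss
  obtain ⟨st, hst, hDu, hDu'⟩ := exists_st hss ω hnd hωR W hW hWW hall
  obtain ⟨Δ, hΔ, hWΔ, hE⟩ := main_E ω hnd hωR hC hss W hW hWW st hDu'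
  exact tate_of_reps hss W hW hall Δ hΔ hWΔ m (hE m) φ hφ

end

end Pool.Agent.W548.Adic
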